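import Pool.Agent.H.MP_5980c2_co.D

namespace Pool.Agent.Results.MP_5980c2_co.NoLimit
open Filter Topology

/-- G has diameter at most 2 and every vertex has degree at most the real number k. -/
def Admissible {n : ℕ} (k : ℝ) (G : SimpleGraph (Fin n)) : Prop :=
  G.ediam ≤ 2 ∧ ∀ v : Fin n, ((G.neighborSet v).ncard : ℝ) ≤ k

/-- The least number of edges of an admissible graph of order n. -/
noncomputable def e2 (n : ℕ) (k : ℝ) : ℕ :=
  sInf {m : ℕ | ∃ G : SimpleGraph (Fin n), Admissible k G ∧ G.edgeSet.ncard = m}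

theorem deg_eq {n : ℕ} (G : SimpleGraph (Fin n)) [DecidableRel G.Adj] (v : Fin n) :
    (G.neighborSet v).ncard = G.degree v := by
  rw [← SimpleGraph.card_neighborFinset_eq_degree, ← Set.ncard_coe_finset,
    SimpleGraph.coe_neighborFinset]

theorem edge_eq {n : ℕ} (G : SimpleGraph (Fin n)) [DecidableRel G.Adj] :
    G.edgeSet.ncard = G.edgeFinset.card := by
  rw [← Set.ncard_coe_finset, SimpleGraph.coe_edgeFinset]

theorem ex (n : ℕ) (hn : 28 ≤ n) : ∃ G : SimpleGraph (Fin n), Admissible (3 / 7 * n) G := by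
  refine ⟨H.D2.rook n, (H.D2.diam2_iff _).2 (H.D2.rook_diam n), fun v => ?_⟩
  rw [deg_eq]
  have h1 := H.D2.rook_deg v
  have h2 : 7 * (H.D2.rook n).degree v ≤ 3 * n := by omega
  have h3 : (7 : ℝ) * (H.D2.rook n).degree v ≤ 3 * n := by exact_mod_cast h2
  linarith

theorem up (t : ℕ) (ht : 2 ≤ t) : e2 (7 * t) (3 / 7 * (7 * t : ℕ)) ≤ 3 * (7 * t) := by
  refine le_trans (Nat.sInf_le ⟨H.D2.fano (7 * t), ⟨(H.D2.diam2_iff _).2
    (H.D2.fano_diam (by omega)), fun v => ?_⟩, rfl⟩) ?_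
  · rw [deg_eq]
    have h3 : ((H.D2.fano (7 * t)).degree v : ℝ) ≤ 3 * t := by
      exact_mod_cast H.D2.fano_deg (by omega) v
    push_cast
    linarith
  · rw [edge_eq]; exact H.D2.fano_edges (by omega)

theorem low (t : ℕ) (ht : 100000000 ≤ t) :
    601 * (7 * t + 2) < 200 * e2 (7 * t + 2) (3 / 7 * (7 * t + 2 : ℕ)) := by
  classical
  obtain ⟨G0, hG0⟩ := ex (7 * t + 2) (by omega)
  obtain ⟨G, hG, he⟩ := Nat.sInf_mem (s := {m : ℕ | ∃ G : SimpleGraph (Fin (7 * t + 2)),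
    Admissible (3 / 7 * (7 * t + 2 : ℕ)) G ∧ G.edgeSet.ncard = m}) ⟨_, G0, hG0, rfl⟩
  have h := H.D2.lower G (k := 3 * t) (fun v => by
    have h1 := hG.2 v
    rw [deg_eq] at h1
    have h2 : (7 : ℝ) * G.degree v ≤ 21 * t + 6 := by push_cast at h1; linarith
    have h3 : 7 * G.degree v ≤ 21 * t + 6 := by exact_mod_cast h2
    omega) (by rw [Fintype.card_fin]; omega) ((H.D2.diam2_iff _).1 hG.1)
    (by rw [Fintype.card_fin]; omega)
  rw [G.sum_degrees_eq_twice_card_edges, Fintype.card_fin, ← edge_eq, he] at h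
  unfold e2
  omega

theorem result :
    (∀ n : ℕ, 28 ≤ n → ∃ G : SimpleGraph (Fin n), Admissible (3 / 7 * n) G) ∧
    (∀ n : ℕ, 14 ≤ n → n % 7 = 0 → e2 n (3 / 7 * n) ≤ 3 * n) ∧
    (∀ n : ℕ, 10 ^ 9 ≤ n → n % 7 = 2 → 601 * n < 200 * e2 n (3 / 7 * n)) ∧
    ¬ ∃ L : ℝ, Tendsto (fun n : ℕ => (e2 n (3 / 7 * n) : ℝ) / n) atTop (𝓝 L) := by
  have h1 : ∀ n : ℕ, 14 ≤ n → n % 7 = 0 → e2 n (3 / 7 * n) ≤ 3 * n := by
    intro n hn h
    obtain ⟨t, rfl⟩ : ∃ t, n = 7 * t := ⟨n / 7, by omega⟩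
    exact up t (by omega)
  have h2 : ∀ n : ℕ, 10 ^ 9 ≤ n → n % 7 = 2 → 601 * n < 200 * e2 n (3 / 7 * n) := by
    intro n hn h
    obtain ⟨t, rfl⟩ : ∃ t, n = 7 * t + 2 := ⟨n / 7, by omega⟩
    exact low t (by omega)
  refine ⟨ex, h1, h2, ?_⟩
  rintro ⟨L, hL⟩
  obtain ⟨N, hN⟩ := Metric.tendsto_atTop.1 hL (1 / 500) (by norm_num)
  obtain ⟨n, hn1, hn2, hn3⟩ : ∃ n : ℕ, N ≤ n ∧ 14 ≤ n ∧ n % 7 = 0 :=
    ⟨7 * (N + 2), by omega, by omega, by omega⟩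
  obtain ⟨m, hm1, hm2, hm3⟩ : ∃ n : ℕ, N ≤ n ∧ 10 ^ 9 ≤ n ∧ n % 7 = 2 := by
    generalize 10 ^ 9 = K
    exact ⟨7 * (N + K) + 2, by omega, by omega, by omega⟩
  have a1 := hN n hn1
  have a2 := hN m hm1
  have b1 := h1 n hn2 hn3
  have b2 := h2 m hm2 hm3
  have p1 : 0 < n := by omega
  have p2 : 0 < m := by omega
  have p1' : (0 : ℝ) < n := by exact_mod_cast p1
  have p2' : (0 : ℝ) < m := by exact_mod_cast p2
  have c1 : (e2 n (3 / 7 * n) : ℝ) / n ≤ 3 := by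
    rw [div_le_iff₀ p1']; exact_mod_cast b1
  have c2 : 601 / 200 < (e2 m (3 / 7 * m) : ℝ) / m := by
    rw [lt_div_iff₀ p2']
    have : (601 : ℝ) * m < 200 * e2 m (3 / 7 * m) := by exact_mod_cast b2
    linarith
  rw [Real.dist_eq, abs_lt] at a1 a2
  linarith [a1.1, a2.2]

end Pool.Agent.Results.MP_5980c2_co.NoLimit
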